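import Pool.Agent.H30.EE.TargetsH

/-!
# MUL: products with constant forms
-/

set_option autoImplicit false

namespace Pool.Agent.H88.EE

open MvPolynomial SC Pool.Agent.H27.LV Pool.Agent.H17.VG Pool.Agent.H30.EE

theorem pf_MUL (hHG : T_HG) (hGAU : T_GAU) : T_MUL := by
  classical
  intro k K _ _ _ _ _ _ htr n a b p hp hpb W hW
  have h1 : up K p ≠ 0 := by
    intro h
    apply hp
    apply MvPolynomial.map_injective _ (FaithfulSMul.algebraMap_injective k K)
    rw [map_zero]
    exact h
  have h2 : (up K p).IsHomogeneous b := hpb.map _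
  have h3 := hGAU k K htr n a b (up K p) h1 h2 W hW
  have h4 : hF k b (up K p) = 0 := by
    have h5 := (hHG k K htr (Mon (n + 1) b) (fun _ => 0)).2.2.2.1
      (fun M : Mon (n + 1) b => coeff (fs M.1) p)
    rw [← h5]
    unfold hF
    congr 1
  rw [h3, h4, mul_zero, sub_zero]

end Pool.Agent.H88.EE
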