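import Pool.Agent.H30.EE.TargetsH
import Pool.Agent.H27.LV.Curve

/-!
# QDD: degrees of quotients and alternating forms
-/

set_option autoImplicit false

namespace Pool.Agent.H88.EE

open MvPolynomial SC Pool.Agent.H27.LV Pool.Agent.H17.VG Pool.Agent.H30.EE

section Alt

variable {K V : Type} [Field K] [AddCommGroup V] [Module K V] {e : ℕ}

theorem alt_congr (ω : V [⋀^Fin e]→ₗ[K] K) (T : Set V)
    (h0 : ∀ g : Fin e → V, (∃ i, g i ∈ T) → ω g = 0) (g g' : Fin e → V) (h : ∀ i, g i - g' i ∈ T) :
    ω g = ω g' := by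
  classical
  have h1 := ω.toMultilinearMap.map_add_univ g' (g - g')
  rw [add_sub_cancel] at h1
  have h2 : ω g = ∑ s : Finset (Fin e), ω (s.piecewise g' (g - g')) := h1
  rw [h2, Finset.sum_eq_single Finset.univ]
  · rw [Finset.piecewise_univ]
  · intro s _ hs
    apply h0
    have h3 : ∃ i, i ∉ s := by
      by_contra hcon
      push Not at hcon
      exact hs (Finset.eq_univ_iff_forall.mpr hcon)
    obtain ⟨i, hi⟩ := h3
    refine ⟨i, ?_⟩
    rw [Finset.piecewise_eq_of_notMem _ _ _ hi]
    exact h i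
  · intro h4
    exact absurd (Finset.mem_univ _) h4

theorem alt_mat (ω : V [⋀^Fin e]→ₗ[K] K) (g : Fin e → V) (A : Matrix (Fin e) (Fin e) K) :
    ω (fun a => ∑ b, A a b • g b) = A.det * ω g := by
  classical
  let L : (Fin e → K) →ₗ[K] V := Fintype.linearCombination K g
  have hL : ∀ c : Fin e → K, L c = ∑ b, c b • g b := fun c => by
    simp [L, Fintype.linearCombination_apply]
  have h1 := AlternatingMap.eq_smul_basis_det (Pi.basisFun K (Fin e)) (ω.compLinearMap L)
  have h2 := DFunLike.congr_fun h1 (fun a => A a)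
  have h3 : (ω.compLinearMap L) (fun a => A a) = ω (fun a => ∑ b, A a b • g b) := by
    rw [AlternatingMap.compLinearMap_apply]
    congr 1
  have h4 : (ω.compLinearMap L) (Pi.basisFun K (Fin e)) = ω g := by
    rw [AlternatingMap.compLinearMap_apply]
    congr 1
    funext a
    rw [hL]
    simp [Pi.single_apply]
  rw [h3, AlternatingMap.smul_apply, h4, Pi.basisFun_det, smul_eq_mul, mul_comm] at h2
  exact h2

theorem alt_coef (ω : V [⋀^Fin e]→ₗ[K] K) (T : Set V)
    (h0 : ∀ g : Fin e → V, (∃ i, g i ∈ T) → ω g = 0) (g : Fin e → V) (hg : ω g ≠ 0)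
    (d : Fin e → K) (hd : ∑ b, d b • g b ∈ T) (b : Fin e) : d b = 0 := by
  classical
  have h1 : ω (Function.update g b (∑ j, d j • g j)) = 0 :=
    h0 _ ⟨b, by rw [Function.update_self]; exact hd⟩
  have h2 : ω (Function.update g b (∑ j, d j • g j)) = d b * ω g := by
    have h3 : ω (Function.update g b (∑ j, d j • g j)) =
        ∑ j, d j * ω (Function.update g b (g j)) := by
      have h4 := map_sum (ω.toMultilinearMap.toLinearMap g b) (fun j => d j • g j) Finset.univ
      simp only [map_smul, smul_eq_mul] at h4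
      exact h4
    rw [h3, Finset.sum_eq_single b]
    · rw [Function.update_eq_self]
    · intro j _ hj
      rw [AlternatingMap.map_update_self _ _ (Ne.symm hj), mul_zero]
    · intro h
      exact absurd (Finset.mem_univ _) h
  rw [h2] at h1
  exact (mul_eq_zero.mp h1).resolve_right hg

end Alt

section Fam

variable {K : Type} [Field K] {ι : Type} {p e : ℕ}

/-- The block matrix of a change of basis. -/
noncomputable def blk (A : Matrix (Fin p) (Fin p) K) (C : Matrix (Fin e) (Fin p) K)
    (D : Matrix (Fin e) (Fin e) K) : Matrix (Fin (p + e)) (Fin (p + e)) K :=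
  (Matrix.fromBlocks A 0 C D).submatrix finSumFinEquiv.symm finSumFinEquiv.symm

theorem blk_det (A : Matrix (Fin p) (Fin p) K) (C : Matrix (Fin e) (Fin p) K)
    (D : Matrix (Fin e) (Fin e) K) : (blk A C D).det = A.det * D.det := by
  rw [blk, Matrix.det_submatrix_equiv_self, Matrix.det_fromBlocks_zero₁₂]

theorem append_blk (A : Matrix (Fin p) (Fin p) K) (C : Matrix (Fin e) (Fin p) K)
    (D : Matrix (Fin e) (Fin e) K) (t t0 : Fin p → ι → K) (g g0 : Fin e → ι → K)
    (ht : ∀ a, ∑ b, A a b • t0 b = t a)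
    (hg : ∀ a, ∑ b, C a b • t0 b + ∑ b, D a b • g0 b = g a) :
    Fin.append t g = fun a i => ∑ b, blk A C D a b * Fin.append t0 g0 b i := by
  funext a i
  refine Fin.addCases (fun a => ?_) (fun a => ?_) a
  · rw [Fin.append_left, ← ht a, Fin.sum_univ_add]
    simp [blk, Finset.sum_apply]
  · rw [Fin.append_right, ← hg a, Fin.sum_univ_add]
    simp [blk, Finset.sum_apply]

end Fam

section Main

variable {k K : Type} [Field k] [Field K] [Algebra k K] {ι : Type} [Finite ι]

theorem prm_indep (hCBM : T_CBM) {v : DV k K} {m : ℕ} {u : Fin m → ι → K} (h : Prm v u) :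
    LinearIndependent K u := ((hCBM K m ι u).1).mpr h.ne

omit [Finite ι] in
theorem prm_nil (v : DV k K) : Prm v (fun a : Fin 0 => (Fin.elim0 a : ι → K)) := by
  have h1 : mnr (fun a : Fin 0 => (Fin.elim0 a : ι → K)) = fun _ => 1 := by
    funext J
    simp [mnr]
  refine ⟨fun a => Fin.elim0 a, ?_, ?_⟩
  · rw [h1]
    intro h
    have h2 := congrFun h (fun a : Fin 0 => (Fin.elim0 a : ι))
    exact one_ne_zero h2
  · rw [h1]
    have h3 : {a : ℤ | ∃ i : Fin 0 → ι, (1 : K) ≠ 0 ∧ v.ord (1 : K) = a} = {0} := by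
      ext a
      simp only [Set.mem_ofPred_eq, Set.mem_singleton_iff, v.ord_one]
      constructor
      · rintro ⟨_, _, h⟩
        exact h.symm
      · rintro rfl
        exact ⟨fun a => Fin.elim0 a, one_ne_zero, rfl⟩
    unfold mo
    rw [h3]
    exact csInf_singleton 0

variable [IsAlgClosed k] [CharZero k] [Algebra.EssFiniteType k K]

theorem local_ineq (hMO : T_MO) (hCBM : T_CBM) (hPBA : T_PBA) (htr : Algebra.trdeg k K = 1)
    {T M : Submodule K (ι → K)} (hTM : T ≤ M) {e p : ℕ}
    (ω : M [⋀^Fin e]→ₗ[K] K)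
    (h0 : ∀ g : Fin e → M, (∃ i, ((g i : M) : ι → K) ∈ T) → ω g = 0) (v : DV k K) (b : ℤ)
    (hb : ∀ (g : Fin e → M), (∀ i j, ge v 0 (((g i : M) : ι → K) j)) → ge v b (ω g))
    (t : Fin p → ι → K) (g : Fin e → M) (ht : LinearIndependent K t)
    (hT : Submodule.span K (Set.range t) = T)
    (htg : LinearIndependent K (Fin.append t (fun a => (g a : ι → K))))
    (hM : Submodule.span K (Set.range (Fin.append t (fun a => (g a : ι → K)))) = M)
    (hg : ω g ≠ 0) :
    mo v (mnr (Fin.append t (fun a => (g a : ι → K)))) - mo v (mnr t) + b ≤ v.ord (ω g) := by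
  classical
  have hfin : Module.Finite K (ι → K) := inferInstance
  -- a primitive basis of `T`
  obtain ⟨p0, t0', hp0⟩ : ∃ (p0 : ℕ) (t0 : Fin p0 → ι → K), Prm v t0 ∧
      Submodule.span K (Set.range t0) = T := by
    obtain ⟨m', c, h1, h2⟩ := hPBA k K htr v ι 0 (fun a => (Fin.elim0 a : ι → K)) T (prm_nil v)
      (by rw [Submodule.span_le]; rintro x ⟨a, _⟩; exact Fin.elim0 a)
    exact ⟨0 + m', _, h1, h2⟩
  obtain ⟨hprm0, hspan0⟩ := hp0
  have hpp : p0 = p := by
    have h1 := finrank_span_eq_card (prm_indep hCBM hprm0)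
    have h2 := finrank_span_eq_card ht
    rw [hspan0, Fintype.card_fin] at h1
    rw [hT, Fintype.card_fin] at h2
    omega
  subst hpp
  -- extended to a primitive basis of `M`
  obtain ⟨e0, g0, hprm1, hspan1⟩ := hPBA k K htr v ι p0 t0' M hprm0 (by rw [hspan0]; exact hTM)
  have hee : e0 = e := by
    have h1 := finrank_span_eq_card (prm_indep hCBM hprm1)
    have h2 := finrank_span_eq_card htg
    rw [hspan1, Fintype.card_fin] at h1
    rw [hM, Fintype.card_fin] at h2
    omega
  subst hee
  -- matrices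
  have hA : ∀ a, ∃ c : Fin p0 → K, ∑ b, c b • t0' b = t a := by
    intro a
    rw [← Submodule.mem_span_range_iff_exists_fun, hspan0, ← hT]
    exact Submodule.subset_span ⟨a, rfl⟩
  choose A hA using hA
  have hC : ∀ a : Fin e0, ∃ c : Fin (p0 + e0) → K, ∑ b, c b • Fin.append t0' g0 b = (g a : ι → K) := by
    intro a
    rw [← Submodule.mem_span_range_iff_exists_fun, hspan1]
    exact (g a).2
  choose C hC using hC
  have hC' : ∀ a : Fin e0, ∑ b, C a (Fin.castAdd e0 b) • t0' b +
      ∑ b, C a (Fin.natAdd p0 b) • g0 b = (g a : ι → K) := by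
    intro a
    rw [← hC a, Fin.sum_univ_add]
    simp
  set A1 : Matrix (Fin (p0 + e0)) (Fin (p0 + e0)) K :=
    blk (Matrix.of A) (Matrix.of fun a b => C a (Fin.castAdd e0 b))
      (Matrix.of fun a b => C a (Fin.natAdd p0 b)) with hA1
  set D : Matrix (Fin e0) (Fin e0) K := Matrix.of fun a b => C a (Fin.natAdd p0 b) with hD
  have h1 := append_blk (Matrix.of A) (Matrix.of fun a b => C a (Fin.castAdd e0 b)) D t t0'
    (fun a => (g a : ι → K)) g0 hA hC'
  have h2 := (hCBM K (p0 + e0) ι (Fin.append t0' g0)).2 A1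
  rw [← hA1] at h1
  rw [← h1] at h2
  have h3 := (hCBM K p0 ι t0').2 (Matrix.of A)
  have h4 : (fun a i => ∑ b, (Matrix.of A) a b * t0' b i) = t := by
    funext a i
    rw [← hA a]
    simp [Finset.sum_apply]
  rw [h4] at h3
  have hdet : A1.det = (Matrix.of A).det * D.det := blk_det _ _ _
  have hne1 : mnr (Fin.append t (fun a => (g a : ι → K))) ≠ 0 := (hCBM K _ ι _).1.mp htg
  have hA1ne : A1.det ≠ 0 := by
    intro h
    rw [h, zero_smul] at h2
    exact hne1 h2
  have hAne : (Matrix.of A).det ≠ 0 := fun h => hA1ne (by rw [hdet, h, zero_mul])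
  have hDne : D.det ≠ 0 := fun h => hA1ne (by rw [hdet, h, mul_zero])
  have h5 : mo v (mnr (Fin.append t (fun a => (g a : ι → K)))) = v.ord A1.det := by
    rw [h2, ((hMO k K v _ _).2 hprm1.ne).2.2.2.1 _ hA1ne, hprm1.ord, add_zero]
  have h6 : mo v (mnr t) = v.ord (Matrix.of A).det := by
    rw [h3, ((hMO k K v _ _).2 hprm0.ne).2.2.2.1 _ hAne, hprm0.ord, add_zero]
  have h7 : v.ord A1.det = v.ord (Matrix.of A).det + v.ord D.det := by
    rw [hdet, v.ord_mul _ _ hAne hDne]
  -- the alternating form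
  have hg0M : ∀ a, g0 a ∈ M := by
    intro a
    rw [← hspan1]
    refine Submodule.subset_span ⟨Fin.natAdd p0 a, ?_⟩
    rw [Fin.append_right]
  let g1 : Fin e0 → M := fun a => ⟨g0 a, hg0M a⟩
  have h8 : ω g = ω (fun a => ∑ b, D a b • g1 b) := by
    apply alt_congr ω {x : M | (x : ι → K) ∈ T} (fun g hg => h0 g hg)
    intro a
    show (((g a - ∑ b, D a b • g1 b : M)) : ι → K) ∈ T
    have h9 : (((g a - ∑ b, D a b • g1 b : M)) : ι → K) = ∑ b, C a (Fin.castAdd e0 b) • t0' b := by
      rw [AddSubgroupClass.coe_sub, ← hC' a]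
      simp [g1, hD]
    rw [h9]
    refine Submodule.sum_mem _ (fun b _ => Submodule.smul_mem _ _ ?_)
    rw [← hspan0]
    exact Submodule.subset_span ⟨b, rfl⟩
  rw [alt_mat] at h8
  have h10 : ω g1 ≠ 0 := by
    intro h
    rw [h, mul_zero] at h8
    exact hg h8
  have h11 : ge v b (ω g1) := by
    apply hb
    intro i j
    have h12 := hprm1.int (Fin.natAdd p0 i) j
    rw [Fin.append_right] at h12
    exact h12
  have h13 : b ≤ v.ord (ω g1) := by
    rcases h11 with h | h
    · exact absurd h h10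
    · exact h
  have h14 : v.ord (ω g) = v.ord D.det + v.ord (ω g1) := by
    rw [h8, v.ord_mul _ _ hDne h10]
  rw [h5, h6, h7, h14]
  omega

theorem pf_QDD (hMO : T_MO) (hHG : T_HG) (hCBM : T_CBM) (hPBA : T_PBA) (hDGB : T_DGB) :
    T_QDD := by
  classical
  intro k K _ _ _ _ _ _ htr ι _ T M e hTM hrk ω hω h0 b hbfin hb
  have : Fintype ι := Fintype.ofFinite ι
  -- a family on which `ω` does not vanish
  obtain ⟨g, hg⟩ : ∃ g, ω g ≠ 0 := by
    by_contra hcon
    push Not at hcon
    exact hω (AlternatingMap.ext hcon)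
  obtain ⟨p, t, ht, hT⟩ : ∃ (p : ℕ) (t : Fin p → ι → K), LinearIndependent K t ∧
      Submodule.span K (Set.range t) = T := by
    refine ⟨Module.finrank K T, fun a => (Module.finBasis K T a : ι → K), ?_, ?_⟩
    · exact (Module.finBasis K T).linearIndependent.map' T.subtype (Submodule.ker_subtype T)
    · have h1 := (Module.finBasis K T).span_eq
      have h2 := congrArg (Submodule.map T.subtype) h1
      rw [Submodule.map_span, Submodule.map_top, Submodule.range_subtype, ← Set.range_comp] at h2
      exact h2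
  have hp : Module.finrank K T = p := by
    have h2 := finrank_span_eq_card ht
    rwa [hT, Fintype.card_fin] at h2
  have htg : LinearIndependent K (Fin.append t (fun a => (g a : ι → K))) := by
    rw [Fintype.linearIndependent_iff]
    intro c hc
    rw [Fin.sum_univ_add] at hc
    simp only [Fin.append_left, Fin.append_right] at hc
    have h1 : ∑ a, c (Fin.castAdd e a) • t a ∈ T := by
      refine Submodule.sum_mem _ (fun a _ => Submodule.smul_mem _ _ ?_)
      rw [← hT]
      exact Submodule.subset_span ⟨a, rfl⟩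
    have h2 : ∀ b : Fin e, c (Fin.natAdd p b) = 0 := by
      apply alt_coef ω {x : M | (x : ι → K) ∈ T} (fun g hg => h0 g hg) g hg
      show ((∑ b, c (Fin.natAdd p b) • g b : M) : ι → K) ∈ T
      have h3 : ((∑ b, c (Fin.natAdd p b) • g b : M) : ι → K) =
          -∑ a, c (Fin.castAdd e a) • t a := by
        rw [eq_neg_iff_add_eq_zero, add_comm, ← hc]
        simp
      rw [h3]
      exact T.neg_mem h1
    simp only [h2, zero_smul, Finset.sum_const_zero, add_zero] at hc
    have h4 := (Fintype.linearIndependent_iff.mp ht) _ hc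
    intro a
    exact Fin.addCases (fun a => h4 a) (fun b => h2 b) a
  have hM : Submodule.span K (Set.range (Fin.append t (fun a => (g a : ι → K)))) = M := by
    apply Submodule.eq_of_le_of_finrank_eq
    · rw [Submodule.span_le]
      rintro x ⟨a, rfl⟩
      refine Fin.addCases (fun a => ?_) (fun a => ?_) a
      · rw [Fin.append_left]
        apply hTM
        rw [← hT]
        exact Submodule.subset_span ⟨a, rfl⟩
      · rw [Fin.append_right]
        exact (g a).2
    · have h5 := finrank_span_eq_card htg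
      rw [h5, Fintype.card_fin]
      omega
  have hdM := hDGB k K htr ι (p + e) _ htg
  have hdT := hDGB k K htr ι p _ ht
  rw [hM] at hdM
  rw [hT] at hdT
  have hf1 : {v : DV k K | mo v (mnr (Fin.append t (fun a => (g a : ι → K)))) ≠ 0}.Finite :=
    (hHG k K htr _ _).1
  have hf2 : {v : DV k K | mo v (mnr t) ≠ 0}.Finite := (hHG k K htr _ _).1
  -- the product formula
  have hone : (fun _ : Unit => (1 : K)) ≠ 0 := by
    intro h
    exact one_ne_zero (congrFun h ())
  have hmo1 : ∀ v : DV k K, mo v (fun _ : Unit => (1 : K)) = 0 := by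
    intro v
    obtain ⟨i, -, hi⟩ := ((hMO k K v Unit (fun _ => (1 : K))).2 hone).2.1
    rw [← hi, v.ord_one]
  have hord : ∀ v : DV k K, mo v ((ω g) • (fun _ : Unit => (1 : K))) = v.ord (ω g) := by
    intro v
    rw [((hMO k K v Unit (fun _ => (1 : K))).2 hone).2.2.2.1 _ hg, hmo1, add_zero]
  have hf3 : {v : DV k K | v.ord (ω g) ≠ 0}.Finite := by
    have h6 := (hHG k K htr Unit ((ω g) • (fun _ : Unit => (1 : K)))).1
    simpa only [hord] using h6
  have hprod : ∑ᶠ v : DV k K, v.ord (ω g) = 0 := by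
    have h7 := (hHG k K htr Unit (fun _ : Unit => (1 : K))).2.2.1 _ hg
    unfold hgt at h7
    simp only [hord, hmo1, finsum_zero, neg_zero, neg_eq_zero] at h7
    exact h7
  have hdM' : dg k M = ∑ᶠ v : DV k K, mo v (mnr (Fin.append t (fun a => (g a : ι → K)))) := by
    rw [hdM, hgt, neg_neg]
  have hdT' : dg k T = ∑ᶠ v : DV k K, mo v (mnr t) := by
    rw [hdT, hgt, neg_neg]
  have hsum : ∑ᶠ v : DV k K, (mo v (mnr (Fin.append t (fun a => (g a : ι → K)))) - mo v (mnr t)) ≤
      ∑ᶠ v : DV k K, (v.ord (ω g) - b v) := by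
    refine finsum_le_finsum' ?_ ?_ ?_
    · exact (hf1.union hf2).subset (fun v hv => by
        by_contra hcon
        simp only [Set.mem_union, Set.mem_ofPred_eq, not_or, not_not] at hcon
        apply hv
        simp only [hcon.1, hcon.2, sub_zero])
    · exact (hf3.union hbfin).subset (fun v hv => by
        by_contra hcon
        simp only [Set.mem_union, Set.mem_ofPred_eq, not_or, not_not] at hcon
        apply hv
        simp only [hcon.1, hcon.2, sub_zero])
    · intro v
      have h8 := local_ineq hMO hCBM hPBA htr hTM ω h0 v (b v) (hb v) t g ht hT htg hM hg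
      show mo v (mnr (Fin.append t (fun a => (g a : ι → K)))) - mo v (mnr t) ≤
        v.ord (ω g) - b v
      linarith
  rw [finsum_sub_distrib hf1 hf2, finsum_sub_distrib hf3 hbfin, hprod] at hsum
  rw [hdM', hdT']
  linarith

end Main

end Pool.Agent.H88.EE
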